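import Mathlib

/-!
# Uniform comparison of Gagliardo seminorms of different orders
-/

namespace Pool.Agent.Results.MP_95ea62_an.GagliardoComparison

open MeasureTheory ENNReal

/-- The Gagliardo seminorm `[f]_{Ẇ^{s,p}(ℝ^N)}`, as an extended nonnegative number. -/
noncomputable def gagliardo (N : ℕ) (p s : ℝ) (f : EuclideanSpace ℝ (Fin N) → ℂ) : ℝ≥0∞ :=
  (∫⁻ x, ∫⁻ y, ‖f x - f y‖ₑ ^ p / ‖x - y‖ₑ ^ ((N : ℝ) + s * p)) ^ (1 / p)

section aux

variable {N : ℕ}

/-- `F(h) = ∫ |f(x) - f(x+h)|^p dx`. -/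
noncomputable def inc (p : ℝ) (f : EuclideanSpace ℝ (Fin N) → ℂ)
    (h : EuclideanSpace ℝ (Fin N)) : ℝ≥0∞ :=
  ∫⁻ x, ‖f x - f (x + h)‖ₑ ^ p

lemma measurable_inc (p : ℝ) {f : EuclideanSpace ℝ (Fin N) → ℂ} (hf : Measurable f) :
    Measurable (inc p f) := by
  unfold inc
  apply Measurable.lintegral_prod_left'
    (f := fun q : EuclideanSpace ℝ (Fin N) × EuclideanSpace ℝ (Fin N) =>
      ‖f q.1 - f (q.1 + q.2)‖ₑ ^ p)
  fun_prop

lemma inc_double {p : ℝ} (hp : 1 ≤ p) {f : EuclideanSpace ℝ (Fin N) → ℂ} (hf : Measurable f)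
    (h : EuclideanSpace ℝ (Fin N)) : inc p f h ≤ 2 ^ p * inc p f ((1 / 2 : ℝ) • h) := by
  set k : EuclideanSpace ℝ (Fin N) := (1 / 2 : ℝ) • h with hk
  have hkk : h = k + k := by rw [hk, ← add_smul]; norm_num
  have h1 : ∀ x, ‖f x - f (x + h)‖ₑ ^ p ≤
      2 ^ (p - 1) * (‖f x - f (x + k)‖ₑ ^ p + ‖f (x + k) - f (x + k + k)‖ₑ ^ p) := by
    intro x
    have e : f x - f (x + h) = (f x - f (x + k)) + (f (x + k) - f (x + k + k)) := by
      rw [hkk, add_assoc x k k]; ring
    rw [e]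
    calc ‖(f x - f (x + k)) + (f (x + k) - f (x + k + k))‖ₑ ^ p
        ≤ (‖f x - f (x + k)‖ₑ + ‖f (x + k) - f (x + k + k)‖ₑ) ^ p := by
          gcongr
          exact enorm_add_le _ _
      _ ≤ _ := ENNReal.rpow_add_le_mul_rpow_add_rpow _ _ hp
  calc inc p f h ≤ ∫⁻ x, 2 ^ (p - 1) *
        (‖f x - f (x + k)‖ₑ ^ p + ‖f (x + k) - f (x + k + k)‖ₑ ^ p) := lintegral_mono h1
    _ = 2 ^ (p - 1) * (inc p f k + inc p f k) := by
        rw [lintegral_const_mul _ (by fun_prop), lintegral_add_left (by fun_prop)]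
        congr 2
        exact lintegral_add_right_eq_self (fun x => ‖f x - f (x + k)‖ₑ ^ p) k
    _ = 2 ^ p * inc p f k := by
        rw [← two_mul, ← mul_assoc]
        congr 1
        nth_rewrite 2 [← ENNReal.rpow_one 2]
        rw [← ENNReal.rpow_add _ _ (by norm_num) (by norm_num)]
        congr 1; ring

lemma inc_le {p : ℝ} (hp : 1 ≤ p) {f : EuclideanSpace ℝ (Fin N) → ℂ} (hf : Measurable f)
    (h : EuclideanSpace ℝ (Fin N)) : inc p f h ≤ 2 ^ p * ∫⁻ x, ‖f x‖ₑ ^ p := by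
  have h1 : ∀ x, ‖f x - f (x + h)‖ₑ ^ p ≤
      2 ^ (p - 1) * (‖f x‖ₑ ^ p + ‖f (x + h)‖ₑ ^ p) := by
    intro x
    calc ‖f x - f (x + h)‖ₑ ^ p ≤ (‖f x‖ₑ + ‖f (x + h)‖ₑ) ^ p := by
          gcongr
          exact enorm_sub_le
      _ ≤ _ := ENNReal.rpow_add_le_mul_rpow_add_rpow _ _ hp
  calc inc p f h ≤ ∫⁻ x, 2 ^ (p - 1) * (‖f x‖ₑ ^ p + ‖f (x + h)‖ₑ ^ p) := lintegral_mono h1
    _ = 2 ^ (p - 1) * ((∫⁻ x, ‖f x‖ₑ ^ p) + ∫⁻ x, ‖f x‖ₑ ^ p) := by
        rw [lintegral_const_mul _ (by fun_prop), lintegral_add_left (by fun_prop)]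
        congr 2
        exact lintegral_add_right_eq_self (fun x => ‖f x‖ₑ ^ p) h
    _ = 2 ^ p * ∫⁻ x, ‖f x‖ₑ ^ p := by
        rw [← two_mul, ← mul_assoc]
        congr 1
        nth_rewrite 2 [← ENNReal.rpow_one 2]
        rw [← ENNReal.rpow_add _ _ (by norm_num) (by norm_num)]
        congr 1; ring

/-- The `p`-th power of the seminorm as an integral over increments. -/
lemma gag_eq (p s : ℝ) {f : EuclideanSpace ℝ (Fin N) → ℂ} (hf : Measurable f) :
    (∫⁻ x, ∫⁻ y, ‖f x - f y‖ₑ ^ p / ‖x - y‖ₑ ^ ((N : ℝ) + s * p)) =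
      ∫⁻ h : EuclideanSpace ℝ (Fin N), inc p f h * (‖h‖ₑ ^ ((N : ℝ) + s * p))⁻¹ := by
  have h1 : ∀ x : EuclideanSpace ℝ (Fin N),
      (∫⁻ y, ‖f x - f y‖ₑ ^ p / ‖x - y‖ₑ ^ ((N : ℝ) + s * p)) =
      ∫⁻ h, ‖f x - f (x + h)‖ₑ ^ p * (‖h‖ₑ ^ ((N : ℝ) + s * p))⁻¹ := by
    intro x
    rw [← lintegral_add_left_eq_self _ x]
    apply lintegral_congr
    intro h
    have e : x - (x + h) = -h := by abel
    rw [e, enorm_neg, div_eq_mul_inv]
  simp_rw [h1]
  rw [lintegral_lintegral_swap]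
  · apply lintegral_congr
    intro h
    rw [lintegral_mul_const _ (by fun_prop)]
    rfl
  · apply Measurable.aemeasurable
    unfold Function.uncurry
    fun_prop

/-- Dyadic annuli. -/
def ann (N : ℕ) (k : ℕ) : Set (EuclideanSpace ℝ (Fin N)) :=
  {h | (1 / 2 : ℝ) ^ (k + 1) < ‖h‖ ∧ ‖h‖ ≤ (1 / 2 : ℝ) ^ k}

lemma measurableSet_ann (k : ℕ) : MeasurableSet (ann N k) := by
  unfold ann
  apply MeasurableSet.inter
  · exact measurableSet_lt measurable_const measurable_norm
  · exact measurableSet_le measurable_norm measurable_const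

lemma disjoint_ann : Pairwise (Function.onFun Disjoint (ann N)) := by
  have key : ∀ j k, j < k → Disjoint (ann N j) (ann N k) := by
    intro j k hjk
    rw [Set.disjoint_left]
    rintro h ⟨h1, _⟩ ⟨_, h4⟩
    have : (1 / 2 : ℝ) ^ k ≤ (1 / 2 : ℝ) ^ (j + 1) :=
      pow_le_pow_of_le_one (by norm_num) (by norm_num) hjk
    linarith
  intro j k hjk
  rcases lt_or_gt_of_ne hjk with h | h
  · exact key j k h
  · exact (key k j h).symm

/-- The contribution of an annulus. -/
noncomputable def piece (p s : ℝ) (f : EuclideanSpace ℝ (Fin N) → ℂ) (k : ℕ) : ℝ≥0∞ :=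
  ∫⁻ h in ann N k, inc p f h * (‖h‖ₑ ^ ((N : ℝ) + s * p))⁻¹

lemma enorm_inv_rpow (h : EuclideanSpace ℝ (Fin N)) (hh : 0 < ‖h‖) (r : ℝ) :
    (‖h‖ₑ ^ r)⁻¹ = ENNReal.ofReal (‖h‖ ^ (-r)) := by
  rw [← ENNReal.rpow_neg, ← ofReal_norm, ENNReal.ofReal_rpow_of_pos hh]

/-- Comparison of the pieces for different orders. -/
lemma piece_mono {p s t : ℝ} (hp : 0 < p) (hst : s ≤ t) (f : EuclideanSpace ℝ (Fin N) → ℂ)
    (hf : Measurable f) (k : ℕ) :
    ENNReal.ofReal ((2 : ℝ) ^ ((t - s) * p)) ^ k * piece p s f k ≤ piece p t f k := by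
  unfold piece
  have hm := measurable_inc p hf
  rw [← lintegral_const_mul _ (by fun_prop)]
  apply setLIntegral_mono' (measurableSet_ann k)
  rintro h ⟨h1, h2⟩
  have hh : 0 < ‖h‖ := lt_trans (by positivity) h1
  rw [enorm_inv_rpow h hh, enorm_inv_rpow h hh, mul_left_comm]
  gcongr
  rw [← ENNReal.ofReal_pow (by positivity), ← ENNReal.ofReal_mul (by positivity)]
  apply ENNReal.ofReal_le_ofReal
  have e : ‖h‖ ^ (-((N : ℝ) + t * p)) = ‖h‖ ^ (-((t - s) * p)) * ‖h‖ ^ (-((N : ℝ) + s * p)) := by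
    rw [← Real.rpow_add hh]; congr 1; ring
  rw [e]
  apply mul_le_mul_of_nonneg_right _ (by positivity)
  have h3 : (0 : ℝ) ≤ (t - s) * p := mul_nonneg (by linarith) hp.le
  calc ((2 : ℝ) ^ ((t - s) * p)) ^ k = ((1 / 2 : ℝ) ^ k) ^ (-((t - s) * p)) := by
        rw [← Real.rpow_natCast, ← Real.rpow_natCast, ← Real.rpow_mul (by norm_num),
          ← Real.rpow_mul (by norm_num), one_div, Real.inv_rpow (by norm_num),
          ← Real.rpow_neg (by norm_num)]
        congr 1; ring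
    _ ≤ ‖h‖ ^ (-((t - s) * p)) :=
        Real.rpow_le_rpow_of_nonpos hh h2 (by linarith)

/-- The scaling relation between consecutive annuli. -/
lemma piece_succ {p s : ℝ} (hp : 1 ≤ p) (f : EuclideanSpace ℝ (Fin N) → ℂ)
    (hf : Measurable f) (k : ℕ) :
    ENNReal.ofReal ((2 : ℝ) ^ (-((1 - s) * p))) * piece p s f k ≤ piece p s f (k + 1) := by
  classical
  have hm := measurable_inc p hf
  set g : EuclideanSpace ℝ (Fin N) → ℝ≥0∞ := fun h =>
    (ann N (k + 1)).indicator (fun h => inc p f h * (‖h‖ₑ ^ ((N : ℝ) + s * p))⁻¹) h with hg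
  have hgm : Measurable g := by
    apply Measurable.indicator _ (measurableSet_ann _)
    fun_prop
  have h1 : piece p s f (k + 1) = ∫⁻ h, g h := by
    unfold piece
    rw [hg, lintegral_indicator (measurableSet_ann _)]
  have h2 : ∫⁻ h, g h = ENNReal.ofReal ((2 : ℝ) ^ (-(N : ℝ))) *
      ∫⁻ u, g ((1 / 2 : ℝ) • u) := by
    have h3 := Measure.map_addHaar_smul (volume : Measure (EuclideanSpace ℝ (Fin N)))
      (r := 1 / 2) (by norm_num)
    have h4 : ∫⁻ u, g ((1 / 2 : ℝ) • u) =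
        ∫⁻ h, g h ∂(Measure.map (fun x => (1 / 2 : ℝ) • x) volume) := by
      rw [lintegral_map hgm (by fun_prop)]
    rw [h4, h3, lintegral_smul_measure, smul_eq_mul, ← mul_assoc, ← ENNReal.ofReal_mul (by positivity)]
    have e : (2 : ℝ) ^ (-(N : ℝ)) * |((1 / 2 : ℝ) ^ Module.finrank ℝ (EuclideanSpace ℝ (Fin N)))⁻¹| = 1 := by
      rw [finrank_euclideanSpace_fin, abs_of_pos (by positivity), Real.rpow_neg (by norm_num),
        Real.rpow_natCast, one_div, inv_pow, inv_inv]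
      field_simp
    rw [e, ENNReal.ofReal_one, one_mul]
  have h5 : ∀ u, (ann N k).indicator (fun u => ENNReal.ofReal ((2 : ℝ) ^ ((N : ℝ) + s * p - p)) *
      (inc p f u * (‖u‖ₑ ^ ((N : ℝ) + s * p))⁻¹)) u ≤ g ((1 / 2 : ℝ) • u) := by
    intro u
    by_cases hu : u ∈ ann N k
    · obtain ⟨hu1, hu2⟩ := hu
      have hnorm : ‖(1 / 2 : ℝ) • u‖ = 1 / 2 * ‖u‖ := by
        rw [norm_smul, Real.norm_of_nonneg (by norm_num)]
      have hu' : (1 / 2 : ℝ) • u ∈ ann N (k + 1) := by
        constructor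
        · rw [hnorm, pow_succ']; linarith
        · rw [hnorm, pow_succ']; linarith
      have hpos : 0 < ‖u‖ := lt_trans (by positivity) hu1
      rw [Set.indicator_of_mem (show u ∈ ann N k from ⟨hu1, hu2⟩), hg]
      simp only
      rw [Set.indicator_of_mem hu', enorm_inv_rpow u hpos,
        enorm_inv_rpow _ (by rw [hnorm]; positivity), hnorm,
        Real.mul_rpow (by norm_num) hpos.le, ENNReal.ofReal_mul (by positivity)]
      have h6 := inc_double hp hf u
      have h7 : ENNReal.ofReal ((2 : ℝ) ^ ((N : ℝ) + s * p - p)) * (2 : ℝ≥0∞) ^ p =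
          ENNReal.ofReal ((1 / 2 : ℝ) ^ (-((N : ℝ) + s * p))) := by
        have : (2 : ℝ≥0∞) ^ p = ENNReal.ofReal ((2 : ℝ) ^ p) := by
          rw [← ENNReal.ofReal_rpow_of_pos (by norm_num)]
          norm_num
        rw [this, ← ENNReal.ofReal_mul (by positivity), ← Real.rpow_add (by norm_num)]
        congr 1
        rw [one_div, Real.inv_rpow (by norm_num), ← Real.rpow_neg (by norm_num)]
        congr 1; ring
      calc ENNReal.ofReal ((2 : ℝ) ^ ((N : ℝ) + s * p - p)) *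
            (inc p f u * ENNReal.ofReal (‖u‖ ^ (-((N : ℝ) + s * p))))
          ≤ ENNReal.ofReal ((2 : ℝ) ^ ((N : ℝ) + s * p - p)) *
            ((2 ^ p * inc p f ((1 / 2 : ℝ) • u)) *
              ENNReal.ofReal (‖u‖ ^ (-((N : ℝ) + s * p)))) := by gcongr
        _ = inc p f ((1 / 2 : ℝ) • u) *
            ((ENNReal.ofReal ((2 : ℝ) ^ ((N : ℝ) + s * p - p)) * 2 ^ p) *
              ENNReal.ofReal (‖u‖ ^ (-((N : ℝ) + s * p)))) := by ring
        _ = _ := by rw [h7]
    · rw [Set.indicator_of_notMem hu]; exact bot_le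
  calc ENNReal.ofReal ((2 : ℝ) ^ (-((1 - s) * p))) * piece p s f k
      = ENNReal.ofReal ((2 : ℝ) ^ (-(N : ℝ))) *
        ∫⁻ u, (ann N k).indicator (fun u => ENNReal.ofReal ((2 : ℝ) ^ ((N : ℝ) + s * p - p)) *
          (inc p f u * (‖u‖ₑ ^ ((N : ℝ) + s * p))⁻¹)) u := by
        rw [lintegral_indicator (measurableSet_ann _), lintegral_const_mul _ (by fun_prop),
          ← mul_assoc, ← ENNReal.ofReal_mul (by positivity), ← Real.rpow_add (by norm_num)]
        unfold piece
        congr 3; ring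
    _ ≤ ENNReal.ofReal ((2 : ℝ) ^ (-(N : ℝ))) * ∫⁻ u, g ((1 / 2 : ℝ) • u) := by
        gcongr with u
        exact h5 u
    _ = piece p s f (k + 1) := by rw [h1, h2]

/-- Chebyshev-type inequality for sequences. -/
lemma cheb (I : ℕ → ℝ≥0∞) (q r : ℝ) (hq0 : 0 < q) (hr : 1 ≤ r) (hqr : q * r < 1)
    (hI : ∀ k, ENNReal.ofReal q * I k ≤ I (k + 1)) :
    ENNReal.ofReal (1 - q) * ∑' k, I k ≤
      ENNReal.ofReal (1 - q * r) * ∑' k, ENNReal.ofReal r ^ k * I k := by
  classical
  have hr0 : 0 < r := by linarith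
  have hq1 : q < 1 := by nlinarith
  set S := ∑' k, I k with hS
  -- tails
  have htail : ∀ j, ENNReal.ofReal q ^ j * S ≤ ∑' i, I (j + i) := by
    intro j
    have h1 : ∀ i, ENNReal.ofReal q ^ j * I i ≤ I (j + i) := by
      induction j with
      | zero => intro i; simp
      | succ j ih =>
        intro i
        calc ENNReal.ofReal q ^ (j + 1) * I i = ENNReal.ofReal q * (ENNReal.ofReal q ^ j * I i) := by
              ring
          _ ≤ ENNReal.ofReal q * I (j + i) := by gcongr; exact ih i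
          _ ≤ I (j + i + 1) := hI _
          _ = I (j + 1 + i) := by congr 1; omega
    rw [hS, ← ENNReal.tsum_mul_left]
    exact ENNReal.tsum_le_tsum h1
  -- expansion of r^k
  have hexp : ∀ k : ℕ, ENNReal.ofReal r ^ k =
      1 + ENNReal.ofReal (r - 1) * ∑ j ∈ Finset.range k, ENNReal.ofReal r ^ j := by
    intro k
    simp_rw [← ENNReal.ofReal_pow hr0.le]
    rw [← ENNReal.ofReal_sum_of_nonneg (fun i _ => by positivity),
      ← ENNReal.ofReal_mul (by linarith), ← ENNReal.ofReal_one,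
      ← ENNReal.ofReal_add (by norm_num)
        (mul_nonneg (by linarith) (Finset.sum_nonneg fun i _ => by positivity))]
    congr 1
    have h := mul_geom_sum r k
    linarith
  have h2 : ∑' k, ENNReal.ofReal r ^ k * I k = S + ENNReal.ofReal (r - 1) *
      ∑' k, ∑ j ∈ Finset.range k, ENNReal.ofReal r ^ j * I k := by
    rw [hS, ← ENNReal.tsum_mul_left, ← ENNReal.tsum_add]
    apply tsum_congr
    intro k
    rw [hexp k, add_mul, one_mul, mul_assoc, Finset.sum_mul]
  have h3 : ∑' j : ℕ, ENNReal.ofReal r ^ j * ∑' i, I (j + 1 + i) ≤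
      ∑' k, ∑ j ∈ Finset.range k, ENNReal.ofReal r ^ j * I k := by
    have h4 : ∀ k, ∑ j ∈ Finset.range k, ENNReal.ofReal r ^ j * I k =
        ∑' j, if j < k then ENNReal.ofReal r ^ j * I k else 0 := by
      intro k
      rw [tsum_eq_sum (s := Finset.range k)]
      · apply Finset.sum_congr rfl
        intro j hj
        rw [if_pos (Finset.mem_range.1 hj)]
      · intro j hj
        rw [if_neg (by simpa using hj)]
    simp_rw [h4]
    rw [ENNReal.tsum_comm]
    apply ENNReal.tsum_le_tsum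
    intro j
    rw [← ENNReal.tsum_mul_left]
    have h5 := ENNReal.tsum_comp_le_tsum_of_injective (f := fun i : ℕ => j + 1 + i)
      (fun a b h => by simpa using h)
      (fun k => if j < k then ENNReal.ofReal r ^ j * I k else 0)
    refine le_trans (le_of_eq ?_) h5
    apply tsum_congr
    intro i
    rw [if_pos (by omega)]
  have h6 : ∑' j : ℕ, ENNReal.ofReal r ^ j * (ENNReal.ofReal q ^ (j + 1) * S) ≤
      ∑' j : ℕ, ENNReal.ofReal r ^ j * ∑' i, I (j + 1 + i) := by
    apply ENNReal.tsum_le_tsum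
    intro j
    gcongr
    exact htail (j + 1)
  have h7 : ∑' j : ℕ, ENNReal.ofReal r ^ j * (ENNReal.ofReal q ^ (j + 1) * S) =
      ENNReal.ofReal (q / (1 - q * r)) * S := by
    have h8 : ∀ j : ℕ, ENNReal.ofReal r ^ j * (ENNReal.ofReal q ^ (j + 1) * S) =
        ENNReal.ofReal (q * r) ^ j * (ENNReal.ofReal q * S) := by
      intro j
      rw [ENNReal.ofReal_mul hq0.le]
      ring
    simp_rw [h8]
    rw [ENNReal.tsum_mul_right, ENNReal.tsum_geometric, ← mul_assoc]
    congr 1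
    rw [← ENNReal.ofReal_one, ← ENNReal.ofReal_sub _ (by positivity),
      ← ENNReal.ofReal_inv_of_pos (by linarith), ← ENNReal.ofReal_mul (by
        rw [inv_nonneg]; linarith)]
    congr 1
    field_simp
  have h9 : ENNReal.ofReal ((1 - q) / (1 - q * r)) * S ≤ ∑' k, ENNReal.ofReal r ^ k * I k := by
    calc ENNReal.ofReal ((1 - q) / (1 - q * r)) * S
        = S + ENNReal.ofReal (r - 1) * (ENNReal.ofReal (q / (1 - q * r)) * S) := by
          have hpos : 0 < 1 - q * r := by linarith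
          rw [← mul_assoc, ← ENNReal.ofReal_mul (by linarith)]
          nth_rewrite 2 [← one_mul S]
          rw [← add_mul, ← ENNReal.ofReal_one, ← ENNReal.ofReal_add (by norm_num)
            (mul_nonneg (by linarith) (by positivity))]
          congr 2
          field_simp
          ring
      _ ≤ S + ENNReal.ofReal (r - 1) *
          ∑' k, ∑ j ∈ Finset.range k, ENNReal.ofReal r ^ j * I k := by
          gcongr
          rw [← h7]
          exact h6.trans h3
      _ = _ := h2.symm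
  calc ENNReal.ofReal (1 - q) * S
      = ENNReal.ofReal (1 - q * r) * (ENNReal.ofReal ((1 - q) / (1 - q * r)) * S) := by
        have hpos : 0 < 1 - q * r := by linarith
        rw [← mul_assoc, ← ENNReal.ofReal_mul hpos.le]
        congr 2
        field_simp
    _ ≤ _ := by gcongr

/-- Splitting of the integral. -/
lemma split {p s : ℝ} (hp : 0 < p) (f : EuclideanSpace ℝ (Fin N) → ℂ) (hf : Measurable f) :
    ∫⁻ h : EuclideanSpace ℝ (Fin N), inc p f h * (‖h‖ₑ ^ ((N : ℝ) + s * p))⁻¹ =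
      (∫⁻ h in {h : EuclideanSpace ℝ (Fin N) | 1 < ‖h‖},
        inc p f h * (‖h‖ₑ ^ ((N : ℝ) + s * p))⁻¹) + ∑' k, piece p s f k := by
  classical
  have hm := measurable_inc p hf
  have hB : MeasurableSet {h : EuclideanSpace ℝ (Fin N) | 1 < ‖h‖} :=
    measurableSet_lt measurable_const measurable_norm
  have hU : MeasurableSet (⋃ k, ann N k) := MeasurableSet.iUnion fun k => measurableSet_ann k
  have h1 : ∑' k, piece p s f k =
      ∫⁻ h in ⋃ k, ann N k, inc p f h * (‖h‖ₑ ^ ((N : ℝ) + s * p))⁻¹ := by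
    rw [lintegral_iUnion (fun k => measurableSet_ann k) disjoint_ann]
    rfl
  rw [h1, ← lintegral_indicator hB, ← lintegral_indicator hU, ← lintegral_add_left
    (Measurable.indicator (by fun_prop) hB)]
  apply lintegral_congr
  intro h
  by_cases h1 : 1 < ‖h‖
  · rw [Set.indicator_of_mem (show h ∈ {h : EuclideanSpace ℝ (Fin N) | 1 < ‖h‖} from h1),
      Set.indicator_of_notMem, add_zero]
    intro hU'
    obtain ⟨k, hk⟩ := Set.mem_iUnion.1 hU'
    have : (1 / 2 : ℝ) ^ k ≤ 1 := pow_le_one₀ (by norm_num) (by norm_num)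
    linarith [hk.2]
  · rw [Set.indicator_of_notMem (show h ∉ {h : EuclideanSpace ℝ (Fin N) | 1 < ‖h‖} from h1),
      zero_add]
    by_cases h0 : h = 0
    · subst h0
      have : inc p f 0 = 0 := by
        unfold inc
        simp [hp]
      rw [this, zero_mul, Set.indicator_of_notMem]
      intro hU'
      obtain ⟨k, hk⟩ := Set.mem_iUnion.1 hU'
      have h3 := hk.1
      rw [norm_zero] at h3
      have : (0 : ℝ) < (1 / 2 : ℝ) ^ (k + 1) := by positivity
      linarith
    · have hpos : 0 < ‖h‖ := norm_pos_iff.2 h0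
      obtain ⟨k, hk1, hk2⟩ := exists_nat_pow_near_of_lt_one hpos (not_lt.1 h1)
        (show (0 : ℝ) < 1 / 2 by norm_num) (by norm_num)
      rw [Set.indicator_of_mem]
      exact Set.mem_iUnion.2 ⟨k, hk1, hk2⟩

/-- The tail. -/
lemma tail {p s θ : ℝ} (hp : 1 ≤ p) (hθ : 0 < θ) (hs : θ < s)
    (f : EuclideanSpace ℝ (Fin N) → ℂ) (hf : Measurable f) :
    (∫⁻ h in {h : EuclideanSpace ℝ (Fin N) | 1 < ‖h‖},
        inc p f h * (‖h‖ₑ ^ ((N : ℝ) + s * p))⁻¹) ≤
      (2 ^ p * (ENNReal.ofReal ((2 : ℝ) ^ ((N : ℝ) + θ * p)) *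
        ∫⁻ h : EuclideanSpace ℝ (Fin N), ENNReal.ofReal ((1 + ‖h‖) ^ (-((N : ℝ) + θ * p))))) *
      ∫⁻ x, ‖f x‖ₑ ^ p := by
  have hB : MeasurableSet {h : EuclideanSpace ℝ (Fin N) | 1 < ‖h‖} :=
    measurableSet_lt measurable_const measurable_norm
  calc (∫⁻ h in {h : EuclideanSpace ℝ (Fin N) | 1 < ‖h‖},
        inc p f h * (‖h‖ₑ ^ ((N : ℝ) + s * p))⁻¹)
      ≤ ∫⁻ h in {h : EuclideanSpace ℝ (Fin N) | 1 < ‖h‖},
        (2 ^ p * ∫⁻ x, ‖f x‖ₑ ^ p) * (ENNReal.ofReal ((2 : ℝ) ^ ((N : ℝ) + θ * p)) *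
          ENNReal.ofReal ((1 + ‖h‖) ^ (-((N : ℝ) + θ * p)))) := by
        apply setLIntegral_mono' hB
        intro h hh
        have hh1 : 1 < ‖h‖ := hh
        have hpos : 0 < ‖h‖ := by linarith
        rw [enorm_inv_rpow h hpos]
        apply mul_le_mul' (inc_le hp hf h)
        rw [← ENNReal.ofReal_mul (by positivity)]
        apply ENNReal.ofReal_le_ofReal
        have h1 : ‖h‖ ^ (-((N : ℝ) + s * p)) ≤ ‖h‖ ^ (-((N : ℝ) + θ * p)) := by
          apply Real.rpow_le_rpow_of_exponent_le hh1.le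
          nlinarith
        have h2 : ‖h‖ ^ (-((N : ℝ) + θ * p)) ≤ ((1 + ‖h‖) / 2) ^ (-((N : ℝ) + θ * p)) := by
          apply Real.rpow_le_rpow_of_nonpos (by positivity) (by linarith)
          have : 0 ≤ θ * p := by positivity
          have : (0 : ℝ) ≤ N := Nat.cast_nonneg N
          linarith
        have h3 : ((1 + ‖h‖) / 2) ^ (-((N : ℝ) + θ * p)) =
            (2 : ℝ) ^ ((N : ℝ) + θ * p) * (1 + ‖h‖) ^ (-((N : ℝ) + θ * p)) := by
          rw [Real.div_rpow (by positivity) (by norm_num), Real.rpow_neg (by norm_num : (0:ℝ) ≤ 2),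
            div_inv_eq_mul, mul_comm]
        linarith
    _ ≤ ∫⁻ h, (2 ^ p * ∫⁻ x, ‖f x‖ₑ ^ p) * (ENNReal.ofReal ((2 : ℝ) ^ ((N : ℝ) + θ * p)) *
          ENNReal.ofReal ((1 + ‖h‖) ^ (-((N : ℝ) + θ * p)))) := setLIntegral_le_lintegral _ _
    _ = _ := by
        rw [lintegral_const_mul _ (by fun_prop), lintegral_const_mul _ (by fun_prop)]
        ring

end aux

/-- **Main result.** For every `N ≥ 1`, `p ∈ (1,∞)` and `θ ∈ (0,1)` there is `C > 0` such that
for all `θ < s < t < 1` and every measurable `f : ℝ^N → ℂ` (in particular every Schwartz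
function)
`min(s,1-s)^{1/p} [f]_{s,p} ≤ C (‖f‖_p + min(t,1-t)^{1/p} [f]_{t,p})`. -/
theorem result (N : ℕ) (hN : 1 ≤ N) (p : ℝ) (hp : 1 < p) (θ : ℝ) (hθ0 : 0 < θ) (hθ1 : θ < 1) :
    ∃ C : ℝ, 0 < C ∧ ∀ s t : ℝ, θ < s → s < t → t < 1 →
      ∀ f : EuclideanSpace ℝ (Fin N) → ℂ, Measurable f →
        ENNReal.ofReal (min s (1 - s) ^ (1 / p)) * gagliardo N p s f ≤
          ENNReal.ofReal C * (eLpNorm f (ENNReal.ofReal p) volume +
            ENNReal.ofReal (min t (1 - t) ^ (1 / p)) * gagliardo N p t f) := by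
  have hp0 : 0 < p := by linarith
  set K : ℝ≥0∞ := 2 ^ p * (ENNReal.ofReal ((2 : ℝ) ^ ((N : ℝ) + θ * p)) *
    ∫⁻ h : EuclideanSpace ℝ (Fin N), ENNReal.ofReal ((1 + ‖h‖) ^ (-((N : ℝ) + θ * p)))) with hK
  have hKfin : K ≠ ⊤ := by
    rw [hK]
    apply ENNReal.mul_ne_top
    · exact ENNReal.rpow_ne_top_of_nonneg hp0.le (by norm_num)
    · apply ENNReal.mul_ne_top ENNReal.ofReal_ne_top
      apply ne_of_lt
      apply finite_integral_one_add_norm
      rw [finrank_euclideanSpace_fin]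
      have : 0 < θ * p := by positivity
      linarith
  set A : ℝ := K.toReal with hA
  have hKA : K = ENNReal.ofReal A := (ENNReal.ofReal_toReal hKfin).symm
  have hA0 : 0 ≤ A := ENNReal.toReal_nonneg
  set B : ℝ := 2 * p / θ with hB
  have hB0 : 0 < B := by positivity
  refine ⟨A ^ (1 / p) + B ^ (1 / p), by positivity, ?_⟩
  intro s t hs hst ht f hf
  have hs0 : 0 < s := by linarith
  have hs1 : s < 1 := by linarith
  have ht0 : 0 < t := by linarith
  set Gs := ∫⁻ h : EuclideanSpace ℝ (Fin N), inc p f h * (‖h‖ₑ ^ ((N : ℝ) + s * p))⁻¹ with hGs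
  set Gt := ∫⁻ h : EuclideanSpace ℝ (Fin N), inc p f h * (‖h‖ₑ ^ ((N : ℝ) + t * p))⁻¹ with hGt
  set L := ∫⁻ x, ‖f x‖ₑ ^ p with hL
  set Ss := ∑' k, piece p s f k with hSs
  set St := ∑' k, piece p t f k with hSt
  -- the comparison of the dyadic sums
  have hcmp : ENNReal.ofReal (1 - s) * Ss ≤ ENNReal.ofReal (2 * p * (1 - t)) * St := by
    set q : ℝ := (2 : ℝ) ^ (-((1 - s) * p)) with hq
    set r : ℝ := (2 : ℝ) ^ ((t - s) * p) with hr
    have hq0 : 0 < q := by positivity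
    have hr1 : 1 ≤ r := Real.one_le_rpow (by norm_num) (mul_nonneg (by linarith) hp0.le)
    have hqr : q * r = (2 : ℝ) ^ (-((1 - t) * p)) := by
      rw [hq, hr, ← Real.rpow_add (by norm_num)]; congr 1; ring
    have hqr1 : q * r < 1 := by
      rw [hqr]
      apply Real.rpow_lt_one_of_one_lt_of_neg (by norm_num)
      have : 0 < (1 - t) * p := mul_pos (by linarith) hp0
      linarith
    have h1 := cheb (fun k => piece p s f k) q r hq0 hr1 hqr1
      (fun k => piece_succ hp.le f hf k)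
    have h2 : ∑' k, ENNReal.ofReal r ^ k * piece p s f k ≤ St := by
      apply ENNReal.tsum_le_tsum
      intro k
      exact piece_mono hp0 hst.le f hf k
    have h3 : 1 - s ≤ 2 * (1 - q) := by
      have h4 : q ≤ (1 / 2 : ℝ) ^ (1 - s) := by
        rw [hq, one_div, Real.inv_rpow (by norm_num), ← Real.rpow_neg (by norm_num)]
        apply Real.rpow_le_rpow_of_exponent_le (by norm_num)
        nlinarith
      have h5 := Real.geom_mean_le_arith_mean2_weighted (w₁ := 1 - s) (w₂ := s) (p₁ := 1 / 2)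
        (p₂ := 1) (by linarith) hs0.le (by norm_num) (by norm_num) (by ring)
      rw [Real.one_rpow, mul_one] at h5
      linarith
    have h4 : 1 - q * r ≤ p * (1 - t) := by
      rw [hqr, Real.rpow_def_of_pos (by norm_num)]
      have h5 := Real.add_one_le_exp (Real.log 2 * -((1 - t) * p))
      have h6 := Real.log_two_lt_d9
      have h7 : 0 < (1 - t) * p := mul_pos (by linarith) hp0
      nlinarith
    calc ENNReal.ofReal (1 - s) * Ss ≤ ENNReal.ofReal (2 * (1 - q)) * Ss := by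
          gcongr
      _ = ENNReal.ofReal 2 * (ENNReal.ofReal (1 - q) * Ss) := by
          rw [ENNReal.ofReal_mul (by norm_num), mul_assoc]
      _ ≤ ENNReal.ofReal 2 * (ENNReal.ofReal (1 - q * r) *
            ∑' k, ENNReal.ofReal r ^ k * piece p s f k) := by gcongr
      _ ≤ ENNReal.ofReal 2 * (ENNReal.ofReal (p * (1 - t)) * St) := by gcongr
      _ = ENNReal.ofReal (2 * p * (1 - t)) * St := by
          rw [← mul_assoc, ← ENNReal.ofReal_mul (by norm_num)]
          congr 2; ring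
  have hmt : 1 - t ≤ (1 / θ) * min t (1 - t) := by
    rw [div_mul_eq_mul_div, one_mul, le_div_iff₀ hθ0]
    rcases le_total t (1 - t) with h | h
    · rw [min_eq_left h]; nlinarith
    · rw [min_eq_right h]; nlinarith
  have hmt0 : 0 < min t (1 - t) := lt_min ht0 (by linarith)
  have hms0 : 0 < min s (1 - s) := lt_min hs0 (by linarith)
  have hGle : ENNReal.ofReal (min s (1 - s)) * Gs ≤
      ENNReal.ofReal A * L + ENNReal.ofReal B * (ENNReal.ofReal (min t (1 - t)) * Gt) := by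
    rw [hGs, split hp0 f hf, mul_add]
    apply add_le_add
    · calc _ ≤ 1 * (∫⁻ h in {h : EuclideanSpace ℝ (Fin N) | 1 < ‖h‖},
            inc p f h * (‖h‖ₑ ^ ((N : ℝ) + s * p))⁻¹) := by
            gcongr
            rw [← ENNReal.ofReal_one]
            apply ENNReal.ofReal_le_ofReal
            exact (min_le_right _ _).trans (by linarith)
        _ ≤ ENNReal.ofReal A * L := by
            rw [one_mul, ← hKA]
            exact tail hp.le hθ0 hs f hf
    · calc ENNReal.ofReal (min s (1 - s)) * Ss ≤ ENNReal.ofReal (1 - s) * Ss := by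
            gcongr
            exact min_le_right _ _
        _ ≤ ENNReal.ofReal (2 * p * (1 - t)) * St := hcmp
        _ ≤ ENNReal.ofReal (B * min t (1 - t)) * Gt := by
            apply mul_le_mul'
            · apply ENNReal.ofReal_le_ofReal
              rw [hB]
              have := mul_le_mul_of_nonneg_left hmt (show 0 ≤ 2 * p by positivity)
              calc 2 * p * (1 - t) ≤ 2 * p * (1 / θ * min t (1 - t)) := this
                _ = _ := by ring
            · rw [hGt, split hp0 f hf]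
              exact le_add_self
        _ = _ := by
            rw [ENNReal.ofReal_mul hB0.le, mul_assoc]
  have hinv : 0 ≤ 1 / p := by positivity
  have hinv1 : 1 / p ≤ 1 := by rw [div_le_one hp0]; exact hp.le
  have hgs : gagliardo N p s f = Gs ^ (1 / p) := by rw [gagliardo, gag_eq p s hf]
  have hgt : gagliardo N p t f = Gt ^ (1 / p) := by rw [gagliardo, gag_eq p t hf]
  have hLp : eLpNorm f (ENNReal.ofReal p) volume = L ^ (1 / p) := by
    rw [eLpNorm_eq_lintegral_rpow_enorm_toReal (by simp [hp0]) ENNReal.ofReal_ne_top,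
      ENNReal.toReal_ofReal hp0.le]
  calc ENNReal.ofReal (min s (1 - s) ^ (1 / p)) * gagliardo N p s f
      = (ENNReal.ofReal (min s (1 - s)) * Gs) ^ (1 / p) := by
        rw [hgs, ENNReal.mul_rpow_of_nonneg _ _ hinv, ENNReal.ofReal_rpow_of_pos hms0]
    _ ≤ (ENNReal.ofReal A * L + ENNReal.ofReal B * (ENNReal.ofReal (min t (1 - t)) * Gt)) ^
          (1 / p) := ENNReal.rpow_le_rpow hGle hinv
    _ ≤ (ENNReal.ofReal A * L) ^ (1 / p) +
        (ENNReal.ofReal B * (ENNReal.ofReal (min t (1 - t)) * Gt)) ^ (1 / p) :=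
        ENNReal.rpow_add_le_add_rpow _ _ hinv hinv1
    _ = ENNReal.ofReal (A ^ (1 / p)) * eLpNorm f (ENNReal.ofReal p) volume +
        ENNReal.ofReal (B ^ (1 / p)) *
          (ENNReal.ofReal (min t (1 - t) ^ (1 / p)) * gagliardo N p t f) := by
        rw [ENNReal.mul_rpow_of_nonneg _ _ hinv, ENNReal.mul_rpow_of_nonneg _ _ hinv,
          ENNReal.mul_rpow_of_nonneg _ _ hinv, ENNReal.ofReal_rpow_of_nonneg hA0 hinv,
          ENNReal.ofReal_rpow_of_pos hB0, ENNReal.ofReal_rpow_of_pos hmt0, hgt, hLp]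
    _ ≤ ENNReal.ofReal (A ^ (1 / p) + B ^ (1 / p)) * eLpNorm f (ENNReal.ofReal p) volume +
        ENNReal.ofReal (A ^ (1 / p) + B ^ (1 / p)) *
          (ENNReal.ofReal (min t (1 - t) ^ (1 / p)) * gagliardo N p t f) := by
        have h1 : 0 ≤ A ^ (1 / p) := by positivity
        have h2 : 0 ≤ B ^ (1 / p) := by positivity
        gcongr <;> linarith
    _ = _ := by rw [mul_add]

end Pool.Agent.Results.MP_95ea62_an.GagliardoComparison
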